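import Pool.Agent.Helper44.KS.GoalsE

/-!
# The Kahn-Saks conjecture: goal CLO (finitely many bounded functions determine the types)
-/

namespace Pool.Agent.Helper98.KS

open MeasureTheory Filter Topology Set
open Pool.Agent.Helper44.KS

noncomputable section

/-- truncation to `[-1, 1]` -/
def clamp (y : ℝ) : ℝ := max (-1) (min 1 y)

lemma clamp_abs (y : ℝ) : |clamp y| ≤ 1 := by
  unfold clamp
  rw [abs_le]
  refine ⟨le_max_left _ _, max_le (by norm_num) (min_le_left _ _)⟩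

lemma clamp_meas : Measurable clamp := by
  unfold clamp
  exact measurable_const.max (measurable_const.min measurable_id)

/-- the error of the truncation -/
lemma clamp_err {B : ℝ} (hB : 0 < B) (y : ℝ) : |y - B * clamp (y / B)| * B ≤ y ^ 2 := by
  unfold clamp
  rcases le_total (y / B) (-1) with h1 | h1
  · have h2 : y ≤ -B := by
      rw [div_le_iff₀ hB] at h1; linarith
    have h3 : min 1 (y / B) ≤ -1 := (min_le_right _ _).trans h1
    rw [max_eq_left h3]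
    have h4 : |y - B * (-1)| = -(y + B) := by
      rw [abs_of_nonpos (by linarith)]; ring
    rw [h4]
    nlinarith
  · rcases le_total 1 (y / B) with h2 | h2
    · have h3 : B ≤ y := by
        rw [le_div_iff₀ hB] at h2; linarith
      rw [min_eq_left h2, max_eq_right (by norm_num)]
      have h4 : |y - B * 1| = y - B := by
        rw [abs_of_nonneg (by linarith)]; ring
      rw [h4]
      nlinarith
    · rw [min_eq_right h2, max_eq_right h1]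
      have h4 : y - B * (y / B) = 0 := by field_simp; ring
      rw [h4]
      simp only [abs_zero, zero_mul]
      positivity

/-- the product with the error of the truncation -/
lemma prod_err {B : ℝ} (hB : 0 < B) (X y : ℝ) :
    |X| * |y - B * clamp (y / B)| ≤ (|X| ^ 3 + |y| ^ 3) / B := by
  rw [le_div_iff₀ hB]
  have h1 := clamp_err hB y
  have h2 : y ^ 2 = |y| ^ 2 := (sq_abs y).symm
  rw [h2] at h1
  have hX : 0 ≤ |X| := abs_nonneg X
  have hy : 0 ≤ |y| := abs_nonneg y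
  calc |X| * |y - B * clamp (y / B)| * B = |X| * (|y - B * clamp (y / B)| * B) := by ring
    _ ≤ |X| * |y| ^ 2 := mul_le_mul_of_nonneg_left h1 hX
    _ ≤ |X| ^ 3 + |y| ^ 3 := by
        rcases le_total |X| |y| with h | h
        · have : |X| * |y| ^ 2 ≤ |y| * |y| ^ 2 := mul_le_mul_of_nonneg_right h (by positivity)
          have h3 : 0 ≤ |X| ^ 3 := by positivity
          nlinarith
        · have h4 : |y| ^ 2 ≤ |X| ^ 2 := by
            exact pow_le_pow_left₀ hy h 2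
          have : |X| * |y| ^ 2 ≤ |X| * |X| ^ 2 := mul_le_mul_of_nonneg_left h4 hX
          have h3 : 0 ≤ |y| ^ 3 := by positivity
          nlinarith

/-- the inequality of the arithmetic and the geometric mean -/
lemma amgm {l : ℝ} (hl : 0 < l) (X A : ℝ) : |X| * |A| ≤ l / 2 * |X| ^ 2 + 1 / (2 * l) * |A| ^ 2 := by
  have h : l / 2 * |X| ^ 2 + 1 / (2 * l) * |A| ^ 2 - |X| * |A| = (l * |X| - |A|) ^ 2 / (2 * l) := by
    field_simp; ring
  have h2 : 0 ≤ (l * |X| - |A|) ^ 2 / (2 * l) := by positivity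
  linarith

/-- the pointwise inequality -/
lemma pointwise {B l : ℝ} (hB : 0 < B) (hl : 0 < l) (yp yq yi yj : ℝ) :
    |yp - yq| ^ 2 ≤ l * |yp - yq| ^ 2 + 1 / (2 * l) * (|yp - yi| ^ 2 + |yq - yj| ^ 2)
      + B * (clamp (yi / B) * yp - clamp (yi / B) * yq)
      - B * (clamp (yj / B) * yp - clamp (yj / B) * yq)
      + (2 * |yp - yq| ^ 3 + |yi| ^ 3 + |yj| ^ 3) / B := by
  have h1 := amgm hl (yp - yq) (yp - yi)
  have h2 := amgm hl (yp - yq) (yq - yj)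
  have h3 := prod_err hB (yp - yq) yi
  have h4 := prod_err hB (yp - yq) yj
  have e1 : (yp - yq) * (yp - yi) ≤ |yp - yq| * |yp - yi| := by
    rw [← abs_mul]; exact le_abs_self _
  have e2 : -((yp - yq) * (yq - yj)) ≤ |yp - yq| * |yq - yj| := by
    rw [← abs_mul]; exact neg_le_abs _
  have e3 : (yp - yq) * (yi - B * clamp (yi / B)) ≤ |yp - yq| * |yi - B * clamp (yi / B)| := by
    rw [← abs_mul]; exact le_abs_self _
  have e4 : -((yp - yq) * (yj - B * clamp (yj / B))) ≤ |yp - yq| * |yj - B * clamp (yj / B)| := by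
    rw [← abs_mul]; exact neg_le_abs _
  have e5 : |yp - yq| ^ 2 = (yp - yq) * (yp - yi) - (yp - yq) * (yq - yj)
      + (yp - yq) * (yi - B * clamp (yi / B)) - (yp - yq) * (yj - B * clamp (yj / B))
      + B * (clamp (yi / B) * yp - clamp (yi / B) * yq)
      - B * (clamp (yj / B) * yp - clamp (yj / B) * yq) := by
    rw [sq_abs]; ring
  have e6 : (2 * |yp - yq| ^ 3 + |yi| ^ 3 + |yj| ^ 3) / B
      = (|yp - yq| ^ 3 + |yi| ^ 3) / B + (|yp - yq| ^ 3 + |yj| ^ 3) / B := by ring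
  rw [e6]
  have e7 : l * |yp - yq| ^ 2 + 1 / (2 * l) * (|yp - yi| ^ 2 + |yq - yj| ^ 2)
      = (l / 2 * |yp - yq| ^ 2 + 1 / (2 * l) * |yp - yi| ^ 2)
        + (l / 2 * |yp - yq| ^ 2 + 1 / (2 * l) * |yq - yj| ^ 2) := by ring
  rw [e7, e5]
  rw [e5] at h1 h2
  linarith

lemma int5 {Ω : Type} [MeasurableSpace Ω] {μ : Measure Ω} {f1 f2 f3 f4 f5 : Ω → ℝ}
    (h1 : Integrable f1 μ) (h2 : Integrable f2 μ) (h3 : Integrable f3 μ) (h4 : Integrable f4 μ)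
    (h5 : Integrable f5 μ) : Integrable (fun x => f1 x + f2 x + f3 x - f4 x + f5 x) μ ∧
    ∫ x, (f1 x + f2 x + f3 x - f4 x + f5 x) ∂μ
      = ∫ x, f1 x ∂μ + ∫ x, f2 x ∂μ + ∫ x, f3 x ∂μ - ∫ x, f4 x ∂μ + ∫ x, f5 x ∂μ := by
  refine ⟨(((h1.add h2).add h3).sub h4).add h5, ?_⟩
  have e0 := integral_add (((h1.add h2).add h3).sub h4) h5
  have e1 := integral_sub ((h1.add h2).add h3) h4
  have e2 := integral_add (h1.add h2) h3
  have e3 := integral_add h1 h2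
  simp only [Pi.add_apply, Pi.sub_apply] at e0 e1 e2 e3
  rw [e0, e1, e2, e3]

lemma int3 {Ω : Type} [MeasurableSpace Ω] {μ : Measure Ω} {f1 f2 f3 : Ω → ℝ}
    (h1 : Integrable f1 μ) (h2 : Integrable f2 μ) (h3 : Integrable f3 μ) (B : ℝ) :
    Integrable (fun x => (2 * f1 x + f2 x + f3 x) / B) μ ∧
    ∫ x, (2 * f1 x + f2 x + f3 x) / B ∂μ
      = (2 * ∫ x, f1 x ∂μ + ∫ x, f2 x ∂μ + ∫ x, f3 x ∂μ) / B := by
  refine ⟨(((h1.const_mul 2).add h2).add h3).div_const B, ?_⟩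
  have e1 := integral_add ((h1.const_mul 2).add h2) h3
  have e2 := integral_add (h1.const_mul 2) h2
  have e3 : ∫ x, 2 * f1 x ∂μ = 2 * ∫ x, f1 x ∂μ := integral_const_mul _ _
  simp only [Pi.add_apply] at e1 e2
  rw [integral_div, e1, e2, e3]

variable {c : ℝ} (Z : KSys c)

lemma Y_meas (p : Fin Z.n) : Measurable fun d : Fin Z.n → ℝ => Z.Y d p := by
  unfold KSys.Y
  exact (measurable_pi_apply p).sub_const _

lemma Y_int (p : Fin Z.n) : Integrable (fun d : Fin Z.n → ℝ => Z.Y d p) Z.μ := by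
  unfold KSys.Y
  exact (Z.int p).sub (integrable_const _)

lemma a_x : Z.a Z.x = 0 := by
  unfold KSys.a
  exact integral_eq_zero_of_ae Z.ref

lemma Y_x : ∀ᵐ d ∂Z.μ, Z.Y d Z.x = 0 := by
  filter_upwards [Z.ref] with d hd
  unfold KSys.Y
  rw [hd, a_x]; ring

lemma abs_Y_le {C : ℝ} {p : Fin Z.n} (hp : p ∈ Z.W C) :
    ∫ d, |Z.Y d p| ∂Z.μ ≤ 4 + √C := by
  have h := Z.m2 p
  have h2 : |∫ e, e p ∂Z.μ| ≤ C := by
    have : |Z.a p| ≤ C := by
      unfold KSys.W at hp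
      simpa using hp
    exact this
  have h3 : √|∫ e, e p ∂Z.μ| ≤ √C := Real.sqrt_le_sqrt h2
  have h4 : ∫ d, |Z.Y d p| ∂Z.μ = ∫ d, |d p - ∫ e, e p ∂Z.μ| ∂Z.μ := rfl
  rw [h4]
  linarith

lemma dist_x {p : Fin Z.n} : Z.dist p Z.x = ∫ d, |Z.Y d p| ∂Z.μ := by
  unfold KSys.dist
  refine integral_congr_ae ?_
  filter_upwards [Y_x Z] with d hd
  rw [hd, sub_zero]

lemma dist_le {C : ℝ} {p q : Fin Z.n} (hp : p ∈ Z.W C) (hq : q ∈ Z.W C) :
    Z.dist p q ≤ 2 * (4 + √C) := by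
  have h1 := abs_Y_le Z hp
  have h2 := abs_Y_le Z hq
  have h3 : Z.dist p q ≤ ∫ d, (|Z.Y d p| + |Z.Y d q|) ∂Z.μ := by
    unfold KSys.dist
    refine integral_mono ((Y_int Z p).sub (Y_int Z q)).abs ((Y_int Z p).abs.add (Y_int Z q).abs) ?_
    intro d
    exact abs_sub _ _
  rw [integral_add (Y_int Z p).abs (Y_int Z q).abs] at h3
  linarith

lemma dist_nonneg' (p q : Fin Z.n) : 0 ≤ Z.dist p q := by
  unfold KSys.dist
  exact integral_nonneg fun d => abs_nonneg _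

lemma cube_int {K0 : ℝ} (q : Fin Z.n)
    (h : Integrable (fun d => |Z.Y d q - Z.Y d Z.x| ^ 3) Z.μ ∧
      ∫ d, |Z.Y d q - Z.Y d Z.x| ^ 3 ∂Z.μ ≤ K0 * Z.dist q Z.x ^ 3) :
    Integrable (fun d => |Z.Y d q| ^ 3) Z.μ ∧
      ∫ d, |Z.Y d q| ^ 3 ∂Z.μ ≤ K0 * Z.dist q Z.x ^ 3 := by
  have h1 : (fun d => |Z.Y d q - Z.Y d Z.x| ^ 3) =ᵐ[Z.μ] fun d => |Z.Y d q| ^ 3 := by
    filter_upwards [Y_x Z] with d hd
    rw [hd, sub_zero]
  refine ⟨h.1.congr h1, ?_⟩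
  rw [← integral_congr_ae h1]
  exact h.2

/-- the integrated inequality -/
lemma integrated {B l : ℝ} (hB : 0 < B) (hl : 0 < l) (p q i j : Fin Z.n)
    (hi2 : ∀ p q, Integrable (fun d => |Z.Y d p - Z.Y d q| ^ 2) Z.μ)
    (hi3 : Integrable (fun d => |Z.Y d p - Z.Y d q| ^ 3) Z.μ)
    (hj3 : ∀ q, Integrable (fun d => |Z.Y d q| ^ 3) Z.μ) :
    ∫ d, |Z.Y d p - Z.Y d q| ^ 2 ∂Z.μ ≤
      l * ∫ d, |Z.Y d p - Z.Y d q| ^ 2 ∂Z.μ
      + 1 / (2 * l) * ((∫ d, |Z.Y d p - Z.Y d i| ^ 2 ∂Z.μ) + ∫ d, |Z.Y d q - Z.Y d j| ^ 2 ∂Z.μ)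
      + B * ((∫ d, clamp (Z.Y d i / B) * Z.Y d p ∂Z.μ) - ∫ d, clamp (Z.Y d i / B) * Z.Y d q ∂Z.μ)
      - B * ((∫ d, clamp (Z.Y d j / B) * Z.Y d p ∂Z.μ) - ∫ d, clamp (Z.Y d j / B) * Z.Y d q ∂Z.μ)
      + (2 * (∫ d, |Z.Y d p - Z.Y d q| ^ 3 ∂Z.μ) + (∫ d, |Z.Y d i| ^ 3 ∂Z.μ)
        + ∫ d, |Z.Y d j| ^ 3 ∂Z.μ) / B := by
  have hg : ∀ i p : Fin Z.n, Integrable (fun d => clamp (Z.Y d i / B) * Z.Y d p) Z.μ := by
    intro i p
    refine (Y_int Z p).bdd_mul (c := 1) ?_ ?_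
    · exact (clamp_meas.comp ((Y_meas Z i).div_const B)).aestronglyMeasurable
    · exact Eventually.of_forall fun d => clamp_abs _
  have a1 : Integrable (fun d => l * |Z.Y d p - Z.Y d q| ^ 2) Z.μ := (hi2 p q).const_mul l
  have a2 : Integrable (fun d => 1 / (2 * l) *
      (|Z.Y d p - Z.Y d i| ^ 2 + |Z.Y d q - Z.Y d j| ^ 2)) Z.μ :=
    ((hi2 p i).add (hi2 q j)).const_mul _
  have a3 : ∀ i, Integrable (fun d => B * (clamp (Z.Y d i / B) * Z.Y d p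
      - clamp (Z.Y d i / B) * Z.Y d q)) Z.μ := fun i => ((hg i p).sub (hg i q)).const_mul _
  obtain ⟨a4, f4⟩ := int3 hi3 (hj3 i) (hj3 j) B
  obtain ⟨a5, f5⟩ := int5 a1 a2 (a3 i) (a3 j) a4
  have key := integral_mono (hi2 p q) a5
    (fun d => pointwise hB hl (Z.Y d p) (Z.Y d q) (Z.Y d i) (Z.Y d j))
  refine key.trans (le_of_eq ?_)
  have f1 : ∫ d, l * |Z.Y d p - Z.Y d q| ^ 2 ∂Z.μ = l * ∫ d, |Z.Y d p - Z.Y d q| ^ 2 ∂Z.μ :=
    integral_const_mul _ _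
  have f2 : ∫ d, 1 / (2 * l) * (|Z.Y d p - Z.Y d i| ^ 2 + |Z.Y d q - Z.Y d j| ^ 2) ∂Z.μ
      = 1 / (2 * l) * ((∫ d, |Z.Y d p - Z.Y d i| ^ 2 ∂Z.μ)
        + ∫ d, |Z.Y d q - Z.Y d j| ^ 2 ∂Z.μ) := by
    rw [integral_const_mul, integral_add (hi2 p i) (hi2 q j)]
  have f3 : ∀ i, ∫ d, B * (clamp (Z.Y d i / B) * Z.Y d p - clamp (Z.Y d i / B) * Z.Y d q) ∂Z.μ
      = B * ((∫ d, clamp (Z.Y d i / B) * Z.Y d p ∂Z.μ)
        - ∫ d, clamp (Z.Y d i / B) * Z.Y d q ∂Z.μ) := by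
    intro i
    rw [integral_const_mul, integral_sub (hg i p) (hg i q)]
  rw [f5, f1, f2, f3 i, f3 j, f4]

/-- CLO -/
theorem clo (h1 : S_CLU) (h2 : S_M3K) : S_CLO := by
  intro c C η hc hC hη
  obtain ⟨K0, hK0, hM⟩ := h2
  obtain ⟨E, hE⟩ : ∃ E, E = 4 + √C := ⟨_, rfl⟩
  have hE4 : 4 ≤ E := by
    rw [hE]; linarith [Real.sqrt_nonneg C]
  have hE0 : 0 < E := by linarith
  obtain ⟨D, hD⟩ : ∃ D, D = 2 * E := ⟨_, rfl⟩
  have hD0 : 0 < D := by linarith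
  obtain ⟨θ, hθ⟩ : ∃ θ, θ = η ^ 2 / (8 * K0 * D) := ⟨_, rfl⟩
  have hθ0 : 0 < θ := by rw [hθ]; positivity
  obtain ⟨B, hB⟩ : ∃ B, B = 8 * K0 * (D ^ 3 + E ^ 3) / η ^ 2 := ⟨_, rfl⟩
  have hB0 : 0 < B := by rw [hB]; positivity
  obtain ⟨k, hk⟩ := h1 c C θ hc hC hθ0
  refine ⟨k, η ^ 2 / (8 * B), by positivity, ?_⟩
  intro Z
  obtain ⟨K, hKW, hKc, hKd⟩ := hk Z
  let e : Fin k → Fin Z.n := fun i => K.toList.getD i Z.x
  have he : ∀ q ∈ K, ∃ i, e i = q := by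
    intro q hq
    have hq' : q ∈ K.toList := Finset.mem_toList.mpr hq
    obtain ⟨m, hm, hmq⟩ := List.mem_iff_getElem.mp hq'
    have hlen : K.toList.length = K.card := Finset.length_toList K
    refine ⟨⟨m, by omega⟩, ?_⟩
    show K.toList.getD m Z.x = q
    rw [List.getD_eq_getElem _ _ hm, hmq]
  refine ⟨fun i d => clamp (Z.Y d (e i) / B), ?_, ?_, ?_⟩
  · intro i
    exact clamp_meas.comp ((Y_meas Z (e i)).div_const B)
  · intro i d
    exact clamp_abs _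
  · intro p hp q hq hpq
    obtain ⟨qi, hqiK, hqi⟩ := hKd p hp
    obtain ⟨qj, hqjK, hqj⟩ := hKd q hq
    obtain ⟨i, hi⟩ := he qi hqiK
    obtain ⟨j, hj⟩ := he qj hqjK
    have hci := hpq i
    have hcj := hpq j
    simp only [hi] at hci
    simp only [hj] at hcj
    have hl : 0 < θ / D := by positivity
    have hcube : ∀ q, Integrable (fun d => |Z.Y d q| ^ 3) Z.μ ∧
        ∫ d, |Z.Y d q| ^ 3 ∂Z.μ ≤ K0 * Z.dist q Z.x ^ 3 := fun q =>
      cube_int Z q ⟨(hM c Z q Z.x).2.1, (hM c Z q Z.x).2.2.2⟩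
    have key := integrated Z hB0 hl p q qi qj (fun p q => (hM c Z p q).1)
      (hM c Z p q).2.1 (fun q => (hcube q).1)
    have hdpq : Z.dist p q ≤ D := by
      rw [hD, hE]; exact dist_le Z hp hq
    have hd0 := dist_nonneg' Z p q
    have m2 : ∫ d, |Z.Y d p - Z.Y d q| ^ 2 ∂Z.μ ≤ K0 * D ^ 2 :=
      (hM c Z p q).2.2.1.trans
        (mul_le_mul_of_nonneg_left (pow_le_pow_left₀ hd0 hdpq 2) hK0.le)
    have m3 : ∫ d, |Z.Y d p - Z.Y d q| ^ 3 ∂Z.μ ≤ K0 * D ^ 3 :=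
      (hM c Z p q).2.2.2.trans
        (mul_le_mul_of_nonneg_left (pow_le_pow_left₀ hd0 hdpq 3) hK0.le)
    have mi2 : ∫ d, |Z.Y d p - Z.Y d qi| ^ 2 ∂Z.μ ≤ K0 * θ ^ 2 :=
      (hM c Z p qi).2.2.1.trans
        (mul_le_mul_of_nonneg_left (pow_le_pow_left₀ (dist_nonneg' Z _ _) hqi 2) hK0.le)
    have mj2 : ∫ d, |Z.Y d q - Z.Y d qj| ^ 2 ∂Z.μ ≤ K0 * θ ^ 2 :=
      (hM c Z q qj).2.2.1.trans
        (mul_le_mul_of_nonneg_left (pow_le_pow_left₀ (dist_nonneg' Z _ _) hqj 2) hK0.le)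
    have mc : ∀ q ∈ K, ∫ d, |Z.Y d q| ^ 3 ∂Z.μ ≤ K0 * E ^ 3 := by
      intro q hq
      refine (hcube q).2.trans (mul_le_mul_of_nonneg_left (pow_le_pow_left₀ (dist_nonneg' Z _ _) ?_ 3)
        hK0.le)
      rw [dist_x, hE]
      exact abs_Y_le Z (hKW hq)
    have mi3 := mc qi hqiK
    have mj3 := mc qj hqjK
    have t1 : θ / D * ∫ d, |Z.Y d p - Z.Y d q| ^ 2 ∂Z.μ ≤ η ^ 2 / 8 := by
      refine (mul_le_mul_of_nonneg_left m2 hl.le).trans (le_of_eq ?_)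
      rw [hθ]; field_simp
    have t2 : 1 / (2 * (θ / D)) * ((∫ d, |Z.Y d p - Z.Y d qi| ^ 2 ∂Z.μ)
        + ∫ d, |Z.Y d q - Z.Y d qj| ^ 2 ∂Z.μ) ≤ η ^ 2 / 8 := by
      have h3 : 0 ≤ 1 / (2 * (θ / D)) := by positivity
      refine (mul_le_mul_of_nonneg_left (add_le_add mi2 mj2) h3).trans (le_of_eq ?_)
      have : 1 / (2 * (θ / D)) * (K0 * θ ^ 2 + K0 * θ ^ 2) = K0 * D * θ := by
        field_simp; ring
      rw [this, hθ]; field_simp
    have t3 : ∀ u : ℝ, |u| ≤ η ^ 2 / (8 * B) → |B * u| ≤ η ^ 2 / 8 := by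
      intro u hu
      rw [abs_mul, abs_of_pos hB0]
      refine (mul_le_mul_of_nonneg_left hu hB0.le).trans (le_of_eq ?_)
      field_simp
    have t3i := (abs_le.mp (t3 _ hci)).2
    have t3j := (abs_le.mp (t3 _ hcj)).1
    have t4 : (2 * (∫ d, |Z.Y d p - Z.Y d q| ^ 3 ∂Z.μ) + (∫ d, |Z.Y d qi| ^ 3 ∂Z.μ)
        + ∫ d, |Z.Y d qj| ^ 3 ∂Z.μ) / B ≤ η ^ 2 / 4 := by
      rw [div_le_iff₀ hB0]
      have : η ^ 2 / 4 * B = 2 * K0 * (D ^ 3 + E ^ 3) := by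
        rw [hB]; field_simp; ring
      rw [this]
      linarith
    have tot : ∫ d, |Z.Y d p - Z.Y d q| ^ 2 ∂Z.μ ≤ η ^ 2 := by
      have : 0 ≤ η ^ 2 := by positivity
      linarith
    have fin1 : Z.dist p q ≤ ∫ d, (1 / (2 * η) * |Z.Y d p - Z.Y d q| ^ 2 + η / 2) ∂Z.μ := by
      unfold KSys.dist
      refine integral_mono ((Y_int Z p).sub (Y_int Z q)).abs
        (((hM c Z p q).1.const_mul _).add (integrable_const _)) ?_
      intro d
      have h := amgm hη (1 : ℝ) (Z.Y d p - Z.Y d q)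
      simp only [abs_one, one_pow, one_mul, mul_one] at h
      show |Z.Y d p - Z.Y d q| ≤ 1 / (2 * η) * |Z.Y d p - Z.Y d q| ^ 2 + η / 2
      linarith
    rw [integral_add ((hM c Z p q).1.const_mul _) (integrable_const _), integral_const_mul] at fin1
    have hu : Z.μ.real univ = 1 := by simp
    rw [integral_const, hu, smul_eq_mul, one_mul] at fin1
    have fin2 : 1 / (2 * η) * ∫ d, |Z.Y d p - Z.Y d q| ^ 2 ∂Z.μ ≤ η / 2 := by
      refine (mul_le_mul_of_nonneg_left tot (by positivity)).trans (le_of_eq ?_)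
      field_simp
    linarith

end

end Pool.Agent.Helper98.KS
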